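import Pool.Agent.H.MP_d01483_lc.Final
import Pool.Agent.H.MP_d01483_lc.Model

/-!
Deterministic recognition of generically rigid graphs in the plane in time
`O(m + n^(13/7))` on a random access machine with words of `O(log n)` bits.
The definitions used in the statement are in `Pool/Agent/H/MP_d01483_lc/Model.lean`.
-/

namespace Pool.Agent.Results.MP_d01483_lc.RigidityRecognition

open Pool.Agent.H.MP_d01483_lc Filter Topology

theorem tendsto_aux (C : ℕ) :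
    Tendsto (fun n : ℕ => (C * ((n : ℝ) ^ (13 / 7 : ℝ) + 1)) / (n : ℝ) ^ 2) atTop (𝓝 0) := by
  have h1 : Tendsto (fun n : ℕ => (n : ℝ) ^ (-(1 / 7) : ℝ)) atTop (𝓝 0) :=
    (tendsto_rpow_neg_atTop (by norm_num : (0 : ℝ) < 1 / 7)).comp tendsto_natCast_atTop_atTop
  have h2 : Tendsto (fun n : ℕ => (n : ℝ) ^ (-2 : ℝ)) atTop (𝓝 0) :=
    (tendsto_rpow_neg_atTop (by norm_num : (0 : ℝ) < 2)).comp tendsto_natCast_atTop_atTop
  have h3 : Tendsto (fun n : ℕ => (C : ℝ) * ((n : ℝ) ^ (-(1 / 7) : ℝ) + (n : ℝ) ^ (-2 : ℝ)))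
      atTop (𝓝 0) := by
    simpa using (h1.add h2).const_mul (C : ℝ)
  refine h3.congr' ?_
  filter_upwards [eventually_ge_atTop 1] with n hn
  have hn0 : (0 : ℝ) < n := by exact_mod_cast hn
  have e1 : (n : ℝ) ^ (-(1 / 7) : ℝ) = (n : ℝ) ^ (13 / 7 : ℝ) / (n : ℝ) ^ 2 := by
    rw [← Real.rpow_natCast, ← Real.rpow_sub hn0]
    norm_num
  have e2 : (n : ℝ) ^ (-2 : ℝ) = 1 / (n : ℝ) ^ 2 := by
    rw [Real.rpow_neg hn0.le, one_div]
    norm_num
  rw [e1, e2]
  ring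

/-- There is a program for a random access machine which, for every graph `G` with `n` vertices
and `m` edges given by adjacency lists, halts after at most `C m + f(n)` steps, where
`f(n) = C (n^(13/7) + 1) = o(n^2)`, with output `1` if `G` is generically rigid in the plane and
with output `0` otherwise.  All numbers occurring in the computation are at most `C (n+1)^2`. -/
theorem result :
    ∃ (P : List Instr) (C : ℕ) (f : ℕ → ℝ),
      (∀ n, f n = C * ((n : ℝ) ^ (13 / 7 : ℝ) + 1)) ∧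
      Tendsto (fun n : ℕ => f n / (n : ℝ) ^ 2) atTop (𝓝 0) ∧
      ∀ (n : ℕ) (G : SimpleGraph (Fin n)) (x : ℕ → ℕ), AdjLists G x →
        ∃ t : ℕ, (t : ℝ) ≤ C * G.edgeSet.ncard + f n ∧
          P.length ≤ (run P x t).pc ∧
          (GenericallyRigid G → (run P x t).reg 0 = 1) ∧
          (¬ GenericallyRigid G → (run P x t).reg 0 = 0) ∧
          ∀ k a, (run P x k).reg a ≤ C * (n + 1) ^ 2 ∧ (run P x k).mem a ≤ C * (n + 1) ^ 2 := by
  obtain ⟨C1, hC1⟩ := mainC_spec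
  obtain ⟨P, Cc, hP⟩ := compile mainC Arr.inp mainC_inp Reg.out
  refine ⟨P, Cc * (C1 + 6) + 1, fun n => (Cc * (C1 + 6) + 1 : ℕ) * ((n : ℝ) ^ (13 / 7 : ℝ) + 1),
    fun n => rfl, tendsto_aux _, ?_⟩
  intro n G x hx
  obtain ⟨σ', T, ex, hT, hT2, hm, hout, hiff⟩ := hC1 hx
  obtain ⟨t, ht, hhalt, hreg, hword⟩ := hP x (n + 2 + 2 * G.edgeSet.ncard)
    (by rw [hx.size]; exact hx.rest) hx.val_le σ' T ex
  refine ⟨t, ?_, hhalt, ?_, ?_, ?_⟩
  · have ht' : (t : ℝ) ≤ Cc * (T + 1) := by exact_mod_cast ht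
    have h1 : (0 : ℝ) ≤ (n : ℝ) ^ (13 / 7 : ℝ) := by positivity
    have h2 : (0 : ℝ) ≤ (G.edgeSet.ncard : ℝ) := by positivity
    have h3 : (T : ℝ) + 1 ≤ (C1 + 6) * (G.edgeSet.ncard + (n : ℝ) ^ (13 / 7 : ℝ) + 1) := by
      nlinarith
    have h4 : (Cc : ℝ) * (T + 1) ≤
        Cc * ((C1 + 6) * (G.edgeSet.ncard + (n : ℝ) ^ (13 / 7 : ℝ) + 1)) :=
      mul_le_mul_of_nonneg_left h3 (by positivity)
    push_cast
    nlinarith
  · intro hG
    rw [hreg]
    exact hiff.2 hG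
  · intro hG
    rw [hreg]
    rcases hout with h | h
    · exact h
    · exact absurd (hiff.1 h) hG
  · intro k a
    have h1 : Cc * (T + (n + 2 + 2 * G.edgeSet.ncard) + 1) ≤ (Cc * (C1 + 6) + 1) * (n + 1) ^ 2 := by
      have h2 : T + (n + 2 + 2 * G.edgeSet.ncard) + 1 ≤ (C1 + 6) * (n + 1) ^ 2 := by
        nlinarith
      calc Cc * (T + (n + 2 + 2 * G.edgeSet.ncard) + 1) ≤ Cc * ((C1 + 6) * (n + 1) ^ 2) :=
            Nat.mul_le_mul_left _ h2
        _ = Cc * (C1 + 6) * (n + 1) ^ 2 := by ring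
        _ ≤ _ := Nat.mul_le_mul_right _ (by omega)
    exact ⟨(hword k a).1.trans h1, (hword k a).2.trans h1⟩

end Pool.Agent.Results.MP_d01483_lc.RigidityRecognition
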